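import Mathlib
import Pool.Agent.W484.CK.Motivic

/-!
# The pairings of motivic cohomology: definitions
-/

open CategoryTheory AlgebraicGeometry

universe u

namespace Run7.h879.BP

open Pool.Agent.H914 VarClass VarClass.Obj Pool.Agent.W492.BB Pool.Agent.W484.CK

/-- `e` is an isomorphism of `V` onto the subgroup of the elements of `M` with the property `p`.
(Isomorphisms of the additive groups of rational vector spaces are linear.) -/
structure IsIsoOnto {V M : Type} [AddCommGroup V] [AddCommGroup M] (e : V → M) (p : M → Prop) :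
    Prop where
  add : ∀ x y, e (x + y) = e x + e y
  injective : ∀ x y, e x = e y → x = y
  mem : ∀ x, p (e x)
  surjective : ∀ y, p y → ∃ x, e x = y

/-- The pairing `β` is additive in both arguments. (Then it is a bilinear form with values in `ℚ`.) -/
def IsBiadditive {V W : Type} [AddCommGroup V] [AddCommGroup W] (β : V → W → ℚ) : Prop :=
  (∀ v v' w, β (v + v') w = β v w + β v' w) ∧ ∀ v w w', β v (w + w') = β v w + β v w'

/-- The pairing `β` is a perfect pairing of rational vector spaces (of Mathlib): the maps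
`V → Hom(W, ℚ)` and `W → Hom(V, ℚ)` are bijective. -/
def IsPerfect {V W : Type} [AddCommGroup V] [Module ℚ V] [AddCommGroup W] [Module ℚ W]
    (β : V → W → ℚ) : Prop :=
  ∃ B : V →ₗ[ℚ] W →ₗ[ℚ] ℚ, (∀ v w, B v w = β v w) ∧ B.IsPerfPair

variable {k : Type u} [Field k] {𝒱 : VarClass k}

/-- Data for the motivic cohomology groups of `X` with rational coefficients and the pairings of
the question. They are numbered like the higher Chow groups:
`G n m = CH^n(X, m)_ℚ = H^(2 n - m)(X, ℚ(n))` for all integers `n`, `m`. The pairing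
`⟨ , ⟩_(i, n)` with `i = 2 n - m` is a pairing of `H^(2 n - m)(X, ℚ(n)) = G n m` and
`H^(2 d - 2 n + m)(X, ℚ(d - n)) = G (d - n) (- m)`, `d = dim X`. -/
structure PairingData (X : 𝒱.Obj) where
  /-- `CH^n(X, m)_ℚ = H^(2 n - m)(X, ℚ(n))` -/
  G : ℤ → ℤ → Type
  [group : ∀ n m, AddCommGroup (G n m)]
  [module : ∀ n m, Module ℚ (G n m)]
  /-- the pairing `⟨ , ⟩_(2 n - m, n)` -/
  pair : ∀ n m : ℤ, G n m → G (X.dim - n) (-m) → ℚ

attribute [instance] PairingData.group PairingData.module

/-- The pairing `⟨ , ⟩_(2 n - m, n)` is perfect. -/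
def PairingData.Perfect {X : 𝒱.Obj} (P : PairingData X) (n m : ℤ) : Prop := IsPerfect (P.pair n m)

/-- The zero-cycle `t` on `X` has degree `n`: the push-forward of `t × X` to `X` is `n` times the
fundamental class of `X`. -/
def IsDegree (C : TheoryData.{u, 0, 0} 𝒱 ℚ) {X : 𝒱.Obj} (t : C.A X) (n : ℚ) : Prop :=
  C.down (snd X X) (C.up (fst X X) t) = n • (1 : C.A X)

/-- The groups with `m = 0` are the Chow groups, and the pairing is the degree of the intersection
product. -/
def IsChowPairing (C : TheoryData.{u, 0, 0} 𝒱 ℚ) {X : 𝒱.Obj} (P : PairingData X) (n : ℤ) : Prop :=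
  ∃ (e : P.G n 0 → C.A X) (e' : P.G (X.dim - n) (-0) → C.A X),
    IsIsoOnto e (C.Deg n) ∧ IsIsoOnto e' (C.Deg (X.dim - n)) ∧
      ∀ x y, IsDegree C (C.mul (e x) (e' y)) (P.pair n 0 x y)

/-- `T m` is the theory of the groups `CH^n(X, m)_ℚ` for `m > 0` (`T 0` is not used). The groups
`G n m` vanish for `m < 0` (that is, `H^i(X, ℚ(n)) = 0` for `i > 2 n`), they are isomorphic to
`CH^n(X, m)_ℚ` for `m > 0`, and for `m = 0` to `CH^n(X)_ℚ`, where the pairing is the degree of the
intersection product. -/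
structure IsPairing (C : TheoryData.{u, 0, 0} 𝒱 ℚ) (T : ℕ → MotivicData C) {X : 𝒱.Obj}
    (P : PairingData X) : Prop where
  bilin : ∀ n m : ℤ, IsBiadditive (P.pair n m)
  neg : ∀ n m : ℤ, m < 0 → ∀ x : P.G n m, x = 0
  pos : ∀ (n : ℤ) (m : ℕ), 0 < m → ∃ e : P.G n m → (T m).M X, IsIsoOnto e ((T m).Deg n)
  chow : ∀ n : ℤ, IsChowPairing C P n

/-- For all integers `n` and `i = 2 n - m`: the pairing `⟨ , ⟩_(i, n)` of `A × Z` is perfect if and
only if the pairings `⟨ , ⟩_(2 n' - m, n')` of `Z` with `n - dim A ≤ n' ≤ n` are perfect. -/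
def PairingsReduce (C : TheoryData.{u, 0, 0} 𝒱 ℚ) (T : ℕ → MotivicData C) (A Z : 𝒱.Obj) : Prop :=
  ∀ (P : PairingData (A.prod Z)) (P' : PairingData Z), IsPairing C T P → IsPairing C T P' →
    ∀ n m : ℤ, P.Perfect n m ↔ ∀ n' : ℤ, n - A.dim ≤ n' → n' ≤ n → P'.Perfect n' m

end Run7.h879.BP
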