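import Mathlib
import Pool.Agent.W484.CK.Motivic

/-!
# Products with abelian varieties, and theories on which correspondences act
-/

set_option autoImplicit false

open CategoryTheory AlgebraicGeometry

namespace Run7.h879.BP

open Polynomial Pool.Agent.H914 Pool.Agent.H914.VarClass Pool.Agent.H914.VarClass.Obj
  Pool.Agent.W492.BB Pool.Agent.W484.CK

/-- `A`, `Z` are as in `IsSituation`, and `T m` are theories on which correspondences act (the
groups `CH^n(X, m)_ℚ`); the Frobenius endomorphism `πA × πZ` of `A × Z` acts on the Chow groups of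
`A × Z` and on the groups `(T m)^n(A × Z)` in the usual way. -/
structure IsMotivicSituation {k : Type} [Field k] {𝒱 : VarClass k} {C : TheoryData.{0, 0, 0} 𝒱 ℚ}
    {K : Type} [Field K] [CharZero K] (H : WeilTheoryData.{0, 0, 0} C K)
    (E : IntermediateField ℚ ℂ) (q r s : ℕ) {I : Type} (f : I → ℤ[X]) {A Z : 𝒱.Obj} (πA : A ⟶ A)
    (πZ : Z ⟶ Z) (T : ℕ → MotivicData C) : Prop where
  situation : IsSituation H E q r s f πA πZ
  frobenius : IsFrobenius C (prodMap πA πZ) (q ^ s)
  motivic : ∀ m, IsMotivic (T m)
  power : ∀ m, ActsAsPower (T m) (prodMap πA πZ) (q ^ s)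

end Run7.h879.BP
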