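import Mathlib
import Pool.Agent.Run7.h879.BP.DefsPair
import Pool.Agent.Run7.h879.BP.DefsSit

/-!
# The pairings of motivic cohomology of products with abelian varieties
-/

set_option autoImplicit false

open CategoryTheory AlgebraicGeometry

namespace Run7.h879.BP

open Polynomial Pool.Agent.H914 Pool.Agent.H914.VarClass Pool.Agent.H914.VarClass.Obj
  Pool.Agent.W492.BB Pool.Agent.W484.CK

/-- `PairingsForRankOver E q r f`: the following holds for the Chow groups `C` with rational
coefficients of all classes `𝒱` of varieties over fields `k` (finite, in the intended use), every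
Weil cohomology theory `H` with coefficients in an algebraically closed field `K` of characteristic
zero and all `A`, `Z`, `T` as in `IsMotivicSituation`: the pairing `⟨ , ⟩_(2 n - m, n)` of `A × Z` is
perfect if and only if the pairings `⟨ , ⟩_(2 n' - m, n')` of `Z` with `n - dim A ≤ n' ≤ n` are
perfect, for all integers `n` and `m`. -/
def PairingsForRankOver (E : IntermediateField ℚ ℂ) (q r : ℕ) {I : Type} (f : I → ℤ[X]) : Prop :=
  ∀ (k : Type) [Field k] (𝒱 : VarClass k) (C : TheoryData.{0, 0, 0} 𝒱 ℚ) [IsChow C]
    (K : Type) [Field K] [IsAlgClosed K] [CharZero K] (H : WeilTheoryData.{0, 0, 0} C K)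
    [IsWeil H] (s : ℕ) (A Z : 𝒱.Obj) (πA : A ⟶ A) (πZ : Z ⟶ Z) (T : ℕ → MotivicData C),
      IsMotivicSituation H E q r s f πA πZ T → PairingsReduce C T A Z

end Run7.h879.BP
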