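import Mathlib
import Pool.Agent.W484.CK.Motivic

/-!
# Parshin's conjecture in one weight: definitions
-/

set_option autoImplicit false

open CategoryTheory AlgebraicGeometry

universe u

namespace Run7.h879.BP

open Pool.Agent.H914 Pool.Agent.H914.VarClass Pool.Agent.H914.VarClass.Obj
  Pool.Agent.W492.BB Pool.Agent.W484.CK

variable {k : Type u} [Field k] {𝒱 : VarClass k}

/-- `f` is a homomorphism of the group `V` to the subspace of the elements of `M` with the property
`p`, and its kernel and cokernel are torsion groups: it identifies `V ⊗ ℚ` with this subspace. -/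
structure IsRationalization {V M : Type} [AddCommGroup V] [AddCommGroup M] (f : V → M)
    (p : M → Prop) : Prop where
  add : ∀ x y, f (x + y) = f x + f y
  mem : ∀ x, p (f x)
  torsion : ∀ x, f x = 0 → ∃ N : ℕ, 0 < N ∧ N • x = 0
  cotorsion : ∀ y, p y → ∃ N : ℕ, 0 < N ∧ ∃ x, f x = N • y

/-- The groups `H i n` are the integral motivic cohomology groups `H^i(X, ℤ(n))` of the smooth
projective variety `X`: they vanish for `i > 2 n`, and for `i = 2 n - m < 2 n` there is a
homomorphism `H^i(X, ℤ(n)) → CH^n(X, m)_ℚ` whose kernel and cokernel are torsion groups. -/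
structure IsMotivicCohomology {C : TheoryData.{u, 0, 0} 𝒱 ℚ} (T : ℕ → MotivicData C) (X : 𝒱.Obj)
    (H : ℤ → ℤ → Type) [∀ i n, AddCommGroup (H i n)] : Prop where
  above : ∀ i n : ℤ, 2 * n < i → ∀ x : H i n, x = 0
  below : ∀ (n : ℤ) (m : ℕ), 0 < m → ∃ f : H (2 * n - m) n → (T m).M X,
    IsRationalization f ((T m).Deg n)

/-- The statement `P^n` for one variety with the motivic cohomology groups `H i n`: the group
`H^i(X, ℤ(n))` is torsion for all `i ≠ 2 n`. -/
def ParshinIn (H : ℤ → ℤ → Type) [∀ i n, AddCommGroup (H i n)] (n : ℤ) : Prop :=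
  ∀ i : ℤ, i ≠ 2 * n → ∀ x : H i n, ∃ N : ℕ, 0 < N ∧ N • x = 0

/-- For every `n`: `P^n` holds for `A × Z` if and only if `P^m` holds for `Z` for all `m` with
`n - dim A ≤ m ≤ n`. -/
def ParshinReduces {C : TheoryData.{u, 0, 0} 𝒱 ℚ} (T : ℕ → MotivicData C) (A Z : 𝒱.Obj) : Prop :=
  ∀ (H : ℤ → ℤ → Type) [∀ i n, AddCommGroup (H i n)] (H' : ℤ → ℤ → Type)
    [∀ i n, AddCommGroup (H' i n)], IsMotivicCohomology T (A.prod Z) H →
    IsMotivicCohomology T Z H' →
      ∀ n : ℤ, ParshinIn H n ↔ ∀ m : ℤ, n - A.dim ≤ m → m ≤ n → ParshinIn H' m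

end Run7.h879.BP
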