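import Mathlib
import Pool.Agent.Y154.BQ.Lin

/-!
# Perfect pairings of rational vector spaces
-/

set_option autoImplicit false

namespace Run7.h879.BP

open Pool.Agent.Y154.BQ

section lin

variable {V W V' W' : Type*} [AddCommGroup V] [Module ℚ V] [AddCommGroup W] [Module ℚ W]
  [AddCommGroup V'] [Module ℚ V'] [AddCommGroup W'] [Module ℚ W']

theorem isPerfPair_iff_perf (β : V →ₗ[ℚ] W →ₗ[ℚ] ℚ) : β.IsPerfPair ↔ Perf β := by
  constructor
  · intro h
    have hV : Module.IsReflexive ℚ V := Module.IsReflexive.of_isPerfPair β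
    have hW : Module.IsReflexive ℚ W := Module.IsReflexive.of_isPerfPair β.flip
    refine ⟨inferInstance, inferInstance, fun v hv => ?_, fun w hw => ?_⟩
    · apply h.bijective_left.1
      rw [map_zero]
      exact LinearMap.ext fun w => by rw [hv w, LinearMap.zero_apply]
    · apply h.bijective_right.1
      rw [map_zero]
      exact LinearMap.ext fun v => by rw [LinearMap.flip_apply, hw v, LinearMap.zero_apply]
  · intro h
    have := h.finV
    have := h.finW
    refine LinearMap.IsPerfPair.of_injective ?_ ?_
    · rw [injective_iff_map_eq_zero]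
      intro v hv
      exact h.left v fun w => by rw [hv, LinearMap.zero_apply]
    · rw [injective_iff_map_eq_zero]
      intro w hw
      refine h.right w fun v => ?_
      have := LinearMap.congr_fun hw v
      simpa using this

theorem isPerfPair_of_right_zero (β : V →ₗ[ℚ] W →ₗ[ℚ] ℚ) (hW : ∀ w : W, w = 0) :
    β.IsPerfPair ↔ ∀ v : V, v = 0 := by
  rw [isPerfPair_iff_perf]
  constructor
  · intro h v
    exact h.left v fun w => by rw [hW w, map_zero]
  · intro h
    have : Subsingleton V := ⟨fun a b => by rw [h a, h b]⟩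
    have : Subsingleton W := ⟨fun a b => by rw [hW a, hW b]⟩
    exact ⟨inferInstance, inferInstance, fun v _ => h v, fun w _ => hW w⟩

theorem isPerfPair_of_left_zero (β : V →ₗ[ℚ] W →ₗ[ℚ] ℚ) (hV : ∀ v : V, v = 0) :
    β.IsPerfPair ↔ ∀ w : W, w = 0 := by
  rw [isPerfPair_iff_perf]
  constructor
  · intro h w
    exact h.right w fun v => by rw [hV v, map_zero, LinearMap.zero_apply]
  · intro h
    have : Subsingleton V := ⟨fun a b => by rw [hV a, hV b]⟩
    have : Subsingleton W := ⟨fun a b => by rw [h a, h b]⟩
    exact ⟨inferInstance, inferInstance, fun v _ => hV v, fun w _ => h w⟩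

theorem perf_congr (β : V →ₗ[ℚ] W →ₗ[ℚ] ℚ) (β' : V' →ₗ[ℚ] W' →ₗ[ℚ] ℚ) (e : V ≃ₗ[ℚ] V')
    (f : W ≃ₗ[ℚ] W') (h : ∀ v w, β v w = β' (e v) (f w)) : Perf β ↔ Perf β' := by
  constructor
  · intro hβ
    have := hβ.finV
    have := hβ.finW
    refine ⟨Module.Finite.equiv e, Module.Finite.equiv f, fun v hv => ?_, fun w hw => ?_⟩
    · have h1 := hβ.left (e.symm v) fun w => by
        rw [h, e.apply_symm_apply]; exact hv _
      rwa [LinearEquiv.map_eq_zero_iff] at h1
    · have h1 := hβ.right (f.symm w) fun v => by
        rw [h, f.apply_symm_apply]; exact hw _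
      rwa [LinearEquiv.map_eq_zero_iff] at h1
  · intro hβ
    have := hβ.finV
    have := hβ.finW
    refine ⟨Module.Finite.equiv e.symm, Module.Finite.equiv f.symm, fun v hv => ?_, fun w hw => ?_⟩
    · have h1 := hβ.left (e v) fun w => by
        have := h v (f.symm w)
        rw [f.apply_symm_apply] at this
        rw [← this]; exact hv _
      rwa [LinearEquiv.map_eq_zero_iff] at h1
    · have h1 := hβ.right (f w) fun v => by
        have := h (e.symm v) w
        rw [e.apply_symm_apply] at this
        rw [← this]; exact hw _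
      rwa [LinearEquiv.map_eq_zero_iff] at h1

end lin

end Run7.h879.BP
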