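import Mathlib
import Pool.Agent.Run7.h879.BP.DefsPairR
import Pool.Agent.Run7.h879.BP.DefsParR
import Pool.Agent.Run7.h879.BP.Lin
import Pool.Agent.Y154.BQ.Kun
import Pool.Agent.W484.CK.Main

/-!
# The pairings of motivic cohomology, and Parshin's conjecture in one weight: products
-/

set_option autoImplicit false
set_option linter.unusedSectionVars false

open CategoryTheory AlgebraicGeometry

universe u w

namespace Run7.h879.BP

open Module Pool.Agent.H914 Pool.Agent.H914.VarClass Pool.Agent.H914.VarClass.Obj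
  Pool.Agent.W492.BB Pool.Agent.W484 Pool.Agent.W484.CK
open Pool.Agent.Y154.BQ hiding PairingsReduce

variable {k : Type u} [Field k] {𝒱 : VarClass k} {C : TheoryData.{u, 0, 0} 𝒱 ℚ} {K : Type w}
  [Field K] [CharZero K] {H : WeilTheoryData.{u, 0, w} C K} [hC : IsChow C] [hH : IsWeil H]
  {A Z X : 𝒱.Obj} {J : Type} [Fintype J] {deg : J → ℕ} {D E : J → C.A A}

/-- One degree of a theory on the product. -/
theorem gr_bot_iff {S : CH.CorrData C} (hS : CH.IsCorrTheory S) (h : CH.IsDual A Z deg D E)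
    (hK : CH.HasKunneth S A Z deg D) (n : ℤ) :
    S.gr (A.prod Z) n = ⊥ ↔ ∀ j, S.gr Z (n - deg j) = ⊥ := by
  classical
  constructor
  · intro hv j
    rw [Submodule.eq_bot_iff]
    intro z hz
    have h1 := CH.act_ext_mem hS h j hz
    rw [sub_add_cancel, hv, Submodule.mem_bot] at h1
    have h2 := CH.act_pair_ext hS h j j z
    rw [if_pos rfl, h1, map_zero] at h2
    exact h2.symm
  · intro hv
    rw [Submodule.eq_bot_iff]
    intro m hm
    obtain ⟨z, ⟨hz, hmz⟩, -⟩ := hK n m hm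
    rw [hmz]
    refine Finset.sum_eq_zero fun j _ => ?_
    have h1 : z j ∈ S.gr Z (n - deg j) := hz j
    rw [hv j, Submodule.mem_bot] at h1
    change S.act (CH.extBy C Z (D j)) (z j) = 0
    rw [h1, map_zero]

/-- All codimensions up to the dimension of `A` occur, once each codimension is counted. -/
theorem forall_deg_iff (hle : ∀ j, deg j ≤ A.dim) (hex : ∀ l : ℕ, l ≤ A.dim → ∃ j, deg j = l)
    (P : ℤ → Prop) (n : ℤ) :
    (∀ j, P (n - deg j)) ↔ ∀ m : ℤ, n - A.dim ≤ m → m ≤ n → P m := by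
  constructor
  · intro h m h1 h2
    obtain ⟨j, hj⟩ := hex (n - m).toNat (by omega)
    have := h j
    rw [hj] at this
    rwa [show n - ((n - m).toNat : ℤ) = m by omega] at this
  · intro h j
    have := hle j
    exact h _ (by omega) (by omega)

theorem gr_bot_iff' {S : CH.CorrData C} (hS : CH.IsCorrTheory S) (h : CH.IsDual A Z deg D E)
    (hK : CH.HasKunneth S A Z deg D) (hex : ∀ l : ℕ, l ≤ A.dim → ∃ j, deg j = l) (n : ℤ) :
    S.gr (A.prod Z) n = ⊥ ↔ ∀ m : ℤ, n - A.dim ≤ m → m ≤ n → S.gr Z m = ⊥ := by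
  rw [gr_bot_iff hS h hK, forall_deg_iff h.le hex (fun m => S.gr Z m = ⊥)]

section pairing

variable (hS : CH.IsStandard H) {T : ℕ → MotivicData C}

theorem isPerfect_iff {V W : Type} [AddCommGroup V] [Module ℚ V] [AddCommGroup W] [Module ℚ W]
    {β : V → W → ℚ} (h : IsBiadditive β) :
    ∃ B : V →ₗ[ℚ] W →ₗ[ℚ] ℚ, (∀ v w, B v w = β v w) ∧ (IsPerfect β ↔ B.IsPerfPair) := by
  let f : V → W →ₗ[ℚ] ℚ := fun v => (AddMonoidHom.mk' (β v) (h.2 v)).toRatLinearMap
  let B : V →ₗ[ℚ] W →ₗ[ℚ] ℚ := (AddMonoidHom.mk' f fun v v' =>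
    LinearMap.ext fun w => h.1 v v' w).toRatLinearMap
  refine ⟨B, fun v w => rfl, ?_, fun hB => ⟨B, fun v w => rfl, hB⟩⟩
  rintro ⟨B', hB', hp⟩
  have : B' = B := LinearMap.ext₂ fun v w => hB' v w
  rwa [← this]

theorem exists_equiv {V M : Type} [AddCommGroup V] [Module ℚ V] [AddCommGroup M] [Module ℚ M]
    {e : V → M} (N : Submodule ℚ M) (h : IsIsoOnto e fun y => y ∈ N) :
    ∃ f : V ≃ₗ[ℚ] N, ∀ x, (f x : M) = e x := by
  let e₁ : V →ₗ[ℚ] M := (AddMonoidHom.mk' e h.add).toRatLinearMap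
  refine ⟨LinearEquiv.ofBijective (e₁.codRestrict N h.mem) ⟨?_, ?_⟩, fun x => rfl⟩
  · intro x y hx
    exact h.injective x y (congrArg Subtype.val hx)
  · rintro ⟨y, hy⟩
    obtain ⟨x, rfl⟩ := h.surjective y hy
    exact ⟨x, rfl⟩

include hS in
/-- The pairing of the Chow groups. -/
theorem pair_zero_iff {P : PairingData X} (hP : IsPairing C T P) (n : ℤ) :
    P.Perfect n 0 ↔ PerfectIn C X n := by
  obtain ⟨e₀, e₀', h1, h2, he⟩ := hP.chow n
  obtain ⟨e, h3⟩ := exists_equiv (C.gr X n) h1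
  obtain ⟨e', h4⟩ := exists_equiv (C.gr X (X.dim - n)) h2
  obtain ⟨β, hβ⟩ := exists_form hS X n
  obtain ⟨B, hB, hB'⟩ := isPerfect_iff (hP.bilin n 0)
  rw [perfectIn_iff hS X n β hβ, PairingData.Perfect, hB', isPerfPair_iff_perf]
  refine perf_congr _ _ e e' fun x y => ?_
  rw [hB]
  refine hasDegree_unique hS (he x y) ?_
  have h5 := hβ (e x) (e' y)
  rw [h3, h4] at h5
  exact h5

theorem eq_bot_iff_forall {V : Type} {M : Type} [AddCommGroup V] [AddCommGroup M]
    [Module ℚ M] {N : Submodule ℚ M} {e : V → M} (he : IsIsoOnto e fun y => y ∈ N) :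
    (∀ v : V, v = 0) ↔ N = ⊥ := by
  have h0 : e 0 = 0 := by
    have h1 := he.add 0 0
    rw [add_zero] at h1
    exact left_eq_add.1 h1
  rw [Submodule.eq_bot_iff]
  constructor
  · intro h x hx
    obtain ⟨y, rfl⟩ := he.surjective x hx
    rw [h y, h0]
  · intro h v
    exact he.injective v 0 (by rw [h0]; exact h _ (he.mem v))

theorem pair_pos_iff {P : PairingData X} (hP : IsPairing C T P) (n : ℤ) {m : ℕ} (hm : 0 < m) :
    P.Perfect n m ↔ (T m).gr X n = ⊥ := by
  obtain ⟨B, hB, hB'⟩ := isPerfect_iff (hP.bilin n m)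
  rw [PairingData.Perfect, hB', isPerfPair_of_right_zero _ (hP.neg _ _ (by omega))]
  obtain ⟨e, he⟩ := hP.pos n m hm
  exact eq_bot_iff_forall he

theorem pair_neg_iff {P : PairingData X} (hP : IsPairing C T P) (n : ℤ) {m : ℕ} (hm : 0 < m) :
    P.Perfect n (-m) ↔ (T m).gr X (X.dim - n) = ⊥ := by
  obtain ⟨B, hB, hB'⟩ := isPerfect_iff (hP.bilin n (-m))
  rw [PairingData.Perfect, hB', isPerfPair_of_left_zero _ (hP.neg _ _ (by omega))]
  have h1 : ∃ e : P.G (X.dim - n) (-(-m)) → (T m).M X,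
      IsIsoOnto e ((T m).Deg (X.dim - n)) := by
    rw [neg_neg]
    exact hP.pos _ m hm
  obtain ⟨e, he⟩ := h1
  exact eq_bot_iff_forall he

include hS in
/-- The pairings of the product. -/
theorem pairingsReduce (hT : ∀ m, IsMotivic (T m)) (h : CH.IsDual A Z deg D E)
    (hD : ∀ j, D j ∈ CH.DivProd C A (deg j))
    (hc : CH.HasKunneth (CH.chowData C) A Z deg D)
    (hK : ∀ m, CH.HasKunneth (toCorr (T m)) A Z deg D) : PairingsReduce C T A Z := by
  have hex : ∀ l : ℕ, l ≤ A.dim → ∃ j, deg j = l := fun l hl => exists_deg_eq hS h hc hD hl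
  intro P P' hP hP' n m
  rcases lt_trichotomy m 0 with hm | rfl | hm
  · obtain ⟨r, rfl⟩ : ∃ r : ℕ, m = -(r : ℤ) := ⟨m.natAbs, by omega⟩
    have hr : 0 < r := by omega
    rw [pair_neg_iff hP n hr]
    have h1 := gr_bot_iff' (toCorr_isCorrTheory (hT r)) h (hK r) hex ((A.prod Z).dim - n)
    have h2 : ((A.prod Z).dim : ℤ) = A.dim + Z.dim := by
      rw [Obj.dim_prod]; push_cast; ring
    change (T r).gr (A.prod Z) ((A.prod Z).dim - n) = ⊥ ↔
      ∀ m : ℤ, (A.prod Z).dim - n - A.dim ≤ m → m ≤ (A.prod Z).dim - n →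
        (T r).gr Z m = ⊥ at h1
    rw [h1]
    constructor
    · intro h3 n' h4 h5
      rw [pair_neg_iff hP' n' hr]
      exact h3 _ (by omega) (by omega)
    · intro h3 m' h4 h5
      have h6 := (pair_neg_iff hP' (Z.dim - m') hr).1 (h3 _ (by omega) (by omega))
      rwa [sub_sub_cancel] at h6
  · rw [pair_zero_iff hS hP, perfectIn_prod_iff' hS h hc hD n]
    exact forall_congr' fun m => imp_congr_right fun _ => imp_congr_right fun _ =>
      (pair_zero_iff hS hP' m).symm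
  · obtain ⟨r, rfl⟩ : ∃ r : ℕ, m = (r : ℤ) := ⟨m.natAbs, by omega⟩
    have hr : 0 < r := by omega
    rw [pair_pos_iff hP n hr]
    have h1 := gr_bot_iff' (toCorr_isCorrTheory (hT r)) h (hK r) hex n
    change (T r).gr (A.prod Z) n = ⊥ ↔
      ∀ m : ℤ, n - A.dim ≤ m → m ≤ n → (T r).gr Z m = ⊥ at h1
    rw [h1]
    exact forall_congr' fun m => imp_congr_right fun _ => imp_congr_right fun _ =>
      (pair_pos_iff hP' m hr).symm

end pairing

section parshin

variable {T : ℕ → MotivicData C}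

/-- The statement `P^n` for one variety, in terms of the theories `T m`. -/
theorem parshinIn_iff {G : ℤ → ℤ → Type} [∀ i n, AddCommGroup (G i n)]
    (hG : IsMotivicCohomology T X G) (n : ℤ) :
    ParshinIn G n ↔ ∀ m : ℕ, 0 < m → (T m).gr X n = ⊥ := by
  constructor
  · intro h m hm
    obtain ⟨f, hf⟩ := hG.below n m hm
    rw [Submodule.eq_bot_iff]
    intro y hy
    obtain ⟨N, hN, x, hx⟩ := hf.cotorsion y hy
    obtain ⟨N', hN', hx'⟩ := h (2 * n - m) (by omega) x
    have h0 : f 0 = 0 := by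
      have h1 := hf.add 0 0
      rw [add_zero] at h1
      exact left_eq_add.1 h1
    have h1 : N' • N • y = 0 := by
      have h2 := map_nsmul (AddMonoidHom.mk' f hf.add) N' x
      change f (N' • x) = N' • f x at h2
      rw [← hx, ← h2, hx', h0]
    rw [← mul_nsmul, ← Nat.cast_smul_eq_nsmul ℚ] at h1
    rcases smul_eq_zero.1 h1 with h3 | h3
    · exfalso
      have h4 : N * N' ≠ 0 := Nat.mul_ne_zero hN.ne' hN'.ne'
      exact h4 (by exact_mod_cast h3)
    · exact h3
  · intro h i hi x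
    rcases lt_or_gt_of_ne hi with h1 | h1
    · obtain ⟨m, hm⟩ : ∃ m : ℕ, i = 2 * n - m := ⟨(2 * n - i).toNat, by omega⟩
      subst hm
      have hm : 0 < m := by omega
      obtain ⟨f, hf⟩ := hG.below n m hm
      exact hf.torsion x ((Submodule.eq_bot_iff _).1 (h m hm) _ (hf.mem x))
    · exact ⟨1, one_pos, by rw [hG.above i n h1 x, smul_zero]⟩

/-- The statements `P^n` for the product. -/
theorem parshinReduces (hT : ∀ m, IsMotivic (T m)) (h : CH.IsDual A Z deg D E)
    (hex : ∀ l : ℕ, l ≤ A.dim → ∃ j, deg j = l)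
    (hK : ∀ m, CH.HasKunneth (toCorr (T m)) A Z deg D) : ParshinReduces T A Z := by
  intro G _ G' _ hG hG' n
  rw [parshinIn_iff hG]
  have h1 : ∀ m, ParshinIn G' m ↔ ∀ r : ℕ, 0 < r → (T r).gr Z m = ⊥ := parshinIn_iff hG'
  simp only [h1]
  constructor
  · intro h2 m h3 h4 r hr
    exact (gr_bot_iff' (toCorr_isCorrTheory (hT r)) h (hK r) hex n).1 (h2 r hr) m h3 h4
  · intro h2 r hr
    exact (gr_bot_iff' (toCorr_isCorrTheory (hT r)) h (hK r) hex n).2 fun m h3 h4 =>
      h2 m h3 h4 r hr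

end parshin

end Run7.h879.BP
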