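import Mathlib
import Pool.Agent.W484.CK.Motivic
import Pool.Agent.Y1.CT.Defs

/-!
# Products with abelian varieties with slope types in CM fields, and theories on which
correspondences act
-/

open CategoryTheory AlgebraicGeometry

namespace Run7.h879.BP

open Polynomial Pool.Agent.H914 VarClass VarClass.Obj Pool.Agent.W492.BB Pool.Agent.W484.CK

/-- `A`, `Z` are as in `Y1.CT.IsSituation` (`Z` is independent of the fields `K i`), and `T m` are
theories on which correspondences act (the groups `CH^n(X, m)_ℚ`); the Frobenius endomorphism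
`πA × πZ` of `A × Z` acts on the Chow groups of `A × Z` and on the groups `(T m)^n(A × Z)` in the
usual way. -/
structure IsMotivicCase {k : Type} [Field k] {𝒱 : VarClass k} {C : TheoryData.{0, 0, 0} 𝒱 ℚ}
    {F : Type} [Field F] [CharZero F] (H : WeilTheoryData.{0, 0, 0} C F) {I : Type} (K : I → Type)
    [∀ i, Field (K i)] (q s : ℕ) (f : I → ℤ[X]) {A Z : 𝒱.Obj} (πA : A ⟶ A) (πZ : Z ⟶ Z)
    (T : ℕ → MotivicData C) : Prop where
  situation : Pool.Agent.Y1.CT.IsSituation H K q s f πA πZ
  frobenius : IsFrobenius C (prodMap πA πZ) (q ^ s)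
  motivic : ∀ m, IsMotivic (T m)
  power : ∀ m, ActsAsPower (T m) (prodMap πA πZ) (q ^ s)

end Run7.h879.BP
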