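import Mathlib
import Pool.Agent.Run7.h879.BP.DefsPair
import Pool.Agent.Run7.h879.BP.DefsSitK

/-!
# The pairings of motivic cohomology of products with abelian varieties with slope types in CM fields
-/

open CategoryTheory AlgebraicGeometry

namespace Run7.h879.BP

open Polynomial Pool.Agent.H914 VarClass VarClass.Obj Pool.Agent.W492.BB Pool.Agent.W484.CK

/-- `PairingsTimes K q f`: the following holds for the Chow groups `C` with rational coefficients
of all classes `𝒱` of varieties over fields `k` (finite, in the intended use), every Weil cohomology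
theory `H` with coefficients in an algebraically closed field `F` of characteristic zero and all
`A`, `Z`, `T` as in `IsMotivicCase`: the pairing `⟨ , ⟩_(2 n - m, n)` of `A × Z` is perfect if and
only if the pairings `⟨ , ⟩_(2 n' - m, n')` of `Z` with `n - dim A ≤ n' ≤ n` are perfect, for all
integers `n` and `m`. -/
def PairingsTimes {I : Type} (K : I → Type) [∀ i, Field (K i)] (q : ℕ) (f : I → ℤ[X]) : Prop :=
  ∀ (k : Type) [Field k] (𝒱 : VarClass k) (C : TheoryData.{0, 0, 0} 𝒱 ℚ) [IsChow C]
    (F : Type) [Field F] [IsAlgClosed F] [CharZero F] (H : WeilTheoryData.{0, 0, 0} C F)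
    [IsWeil H] (s : ℕ) (A Z : 𝒱.Obj) (πA : A ⟶ A) (πZ : Z ⟶ Z) (T : ℕ → MotivicData C),
      IsMotivicCase H K q s f πA πZ T → PairingsReduce C T A Z

end Run7.h879.BP
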