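import Mathlib
import Pool.Agent.Run7.h879.BP.DefsPar
import Pool.Agent.Run7.h879.BP.DefsSitK

/-!
# Parshin's conjecture in one weight for products with abelian varieties with slope types in CM fields
-/

set_option autoImplicit false

open CategoryTheory AlgebraicGeometry

namespace Run7.h879.BP

open Polynomial Pool.Agent.H914 Pool.Agent.H914.VarClass Pool.Agent.H914.VarClass.Obj
  Pool.Agent.W492.BB Pool.Agent.W484.CK

/-- `ParshinTimes K q f`: the following holds for the Chow groups `C` with rational coefficients
of all classes `𝒱` of varieties over fields `k` (finite, in the intended use), every Weil cohomology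
theory `H` with coefficients in an algebraically closed field `F` of characteristic zero and all
`A`, `Z`, `T` as in `IsMotivicCase`: for every `n` the statement `P^n` holds for `A × Z` if and only
if `P^m` holds for `Z` for all `m` with `n - dim A ≤ m ≤ n`. -/
def ParshinTimes {I : Type} (K : I → Type) [∀ i, Field (K i)] (q : ℕ) (f : I → ℤ[X]) : Prop :=
  ∀ (k : Type) [Field k] (𝒱 : VarClass k) (C : TheoryData.{0, 0, 0} 𝒱 ℚ) [IsChow C]
    (F : Type) [Field F] [IsAlgClosed F] [CharZero F] (H : WeilTheoryData.{0, 0, 0} C F)
    [IsWeil H] (s : ℕ) (A Z : 𝒱.Obj) (πA : A ⟶ A) (πZ : Z ⟶ Z) (T : ℕ → MotivicData C),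
      IsMotivicCase H K q s f πA πZ T → ParshinReduces T A Z

end Run7.h879.BP
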