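import Mathlib
import Pool.Agent.Run7.h879.BP.Core
import Pool.Agent.Run7.h879.BP.DefsPairK
import Pool.Agent.Run7.h879.BP.DefsParK
import Pool.Agent.Y1.CT.Kun

/-!
# Products with abelian varieties with slope types in CM fields: the properties
-/

set_option autoImplicit false
set_option linter.unusedSectionVars false

open CategoryTheory AlgebraicGeometry

namespace Run7.h879.BP

open Pool.Agent.Y154.BQ hiding PairingsReduce

open Module Polynomial Pool.Agent.H914 Pool.Agent.H914.VarClass Pool.Agent.H914.VarClass.Obj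
  Pool.Agent.W492.BB Pool.Agent.W484 Pool.Agent.W484.CK
  Pool.Agent.W550.Corr Pool.Agent.Y1.CT

variable {I : Type} {K : I → Type} [∀ i, Field (K i)] {q : ℕ} (hq : 1 < q) {f : I → ℤ[X]}
  (hR : NoRel f q (Independent K))

include hq hR

theorem pairingsTimes : PairingsTimes K q f := by
  intro k _ 𝒱 C _ F _ _ _ H _ s A Z πA πZ T ⟨hsit, hF, hT, hπ⟩
  obtain ⟨J, hJ, deg, D, E', hdual, hD, hK⟩ := kunneth_main hq hR
    (isStandard_bridge hsit.standard) hsit.pos (isAbelian_bridge hsit.abelian)
    (πZ := πZ) hsit.independent (nilpotence_bridge hsit.nilpotence)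
  have h1 : CH.HasKunneth (CH.chowData C) A Z deg D := CH.hasKunneth_of hdual
    CH.chowData_isCorrTheory (hK (CH.chowData C) CH.chowData_isCorrTheory
      (CH.chowData_actsAsPower (isFrobenius_bridge hF)))
  have h2 : ∀ m, CH.HasKunneth (toCorr (T m)) A Z deg D := fun m => CH.hasKunneth_of hdual
    (toCorr_isCorrTheory (hT m)) (hK (toCorr (T m)) (toCorr_isCorrTheory (hT m))
      (toCorr_actsAsPower (hπ m)))
  exact pairingsReduce (isStandard_bridge hsit.standard) hT hdual hD h1 h2

theorem parshinTimes : ParshinTimes K q f := by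
  intro k _ 𝒱 C _ F _ _ _ H _ s A Z πA πZ T ⟨hsit, hF, hT, hπ⟩
  obtain ⟨J, hJ, deg, D, E', hdual, hD, hK⟩ := kunneth_main hq hR
    (isStandard_bridge hsit.standard) hsit.pos (isAbelian_bridge hsit.abelian)
    (πZ := πZ) hsit.independent (nilpotence_bridge hsit.nilpotence)
  have h1 : CH.HasKunneth (CH.chowData C) A Z deg D := CH.hasKunneth_of hdual
    CH.chowData_isCorrTheory (hK (CH.chowData C) CH.chowData_isCorrTheory
      (CH.chowData_actsAsPower (isFrobenius_bridge hF)))
  have h2 : ∀ m, CH.HasKunneth (toCorr (T m)) A Z deg D := fun m => CH.hasKunneth_of hdual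
    (toCorr_isCorrTheory (hT m)) (hK (toCorr (T m)) (toCorr_isCorrTheory (hT m))
      (toCorr_actsAsPower (hπ m)))
  exact parshinReduces hT hdual (fun l hl => exists_deg_eq (isStandard_bridge hsit.standard)
    hdual h1 hD hl) h2

end Run7.h879.BP
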